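import Mathlib
import Pool.Agent.Lib.MP_279640_co.Defs
import Pool.Agent.Lib.MP_279640_co.Clique

set_option autoImplicit false
open scoped Classical
open Filter Topology

namespace Pool.Agent.Results.MP_279640_co.BetaConstant

open Pool.Agent.Lib.MP_279640_co

/-- The filter of pairs `(m, n)` with `m ≤ n.choose 2`, `m → ∞` and `n / √m → c`. -/
noncomputable def pairFilter (c : ℝ) : Filter (ℕ × ℕ) :=
  comap Prod.fst atTop ⊓ comap (fun p => (p.2 : ℝ) / Real.sqrt (p.1 : ℝ)) (𝓝 c) ⊓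
    𝓟 {p | p.1 ≤ p.2.choose 2}

/-- `β(c)`: the lower limit of `(b(m,n) - m/2)/√m` over these pairs. -/
noncomputable def beta (c : ℝ) : EReal :=
  liminf (fun p : ℕ × ℕ =>
    ((((bis p.1 p.2 : ℝ) - (p.1 : ℝ) / 2) / Real.sqrt (p.1 : ℝ) : ℝ) : EReal)) (pairFilter c)

/-- Lower bound, uniformly for `n ≤ C √m`. -/
lemma lower_bound (c : ℝ) (η : ℝ) (hη0 : 0 < η) (hη1 : η ≤ 1) :
    ∀ᶠ p : ℕ × ℕ in pairFilter c, (1 - η) * (1 / Real.sqrt 8) ≤
      ((bis p.1 p.2 : ℝ) - (p.1 : ℝ) / 2) / Real.sqrt (p.1 : ℝ) := by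
  -- a large constant
  set C := |c| + 1 with hC
  have hC1 : 1 ≤ C := by rw [hC]; linarith [abs_nonneg c]
  set q0 := 384 / η ^ 2 + 50 * C / η ^ 2 + 1 with hq0
  have hη2 : 0 < η ^ 2 := by positivity
  have hq0pos : 0 < q0 := by positivity
  have e1 : ∀ᶠ p : ℕ × ℕ in pairFilter c, q0 ^ 4 ≤ (p.1 : ℝ) := by
    have : ∀ᶠ p : ℕ × ℕ in comap Prod.fst atTop, q0 ^ 4 ≤ (p.1 : ℝ) := by
      have h := (tendsto_natCast_atTop_atTop (R := ℝ)).eventually_ge_atTop (q0 ^ 4)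
      exact h.comap Prod.fst
    exact this.filter_mono (inf_le_left.trans inf_le_left)
  have e2 : ∀ᶠ p : ℕ × ℕ in pairFilter c, (p.2 : ℝ) / Real.sqrt (p.1 : ℝ) < C := by
    have h : ∀ᶠ x : ℝ in 𝓝 c, x < C := by
      apply eventually_lt_nhds
      rw [hC]; linarith [le_abs_self c]
    have := h.comap (fun p : ℕ × ℕ => (p.2 : ℝ) / Real.sqrt (p.1 : ℝ))
    exact this.filter_mono (inf_le_left.trans inf_le_right)
  have e3 : ∀ᶠ p : ℕ × ℕ in pairFilter c, p.1 ≤ p.2.choose 2 := by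
    have : ∀ᶠ p : ℕ × ℕ in 𝓟 {p : ℕ × ℕ | p.1 ≤ p.2.choose 2}, p.1 ≤ p.2.choose 2 :=
      eventually_principal.mpr fun p hp => hp
    exact this.filter_mono inf_le_right
  filter_upwards [e1, e2, e3] with p h1 h2 h3
  obtain ⟨m, n⟩ := p
  simp only at h1 h2 h3 ⊢
  obtain ⟨G, hG, hb⟩ := exists_bis m n h3
  set q := Real.sqrt (Real.sqrt (m : ℝ)) with hq
  have hm0 : (0 : ℝ) ≤ m := Nat.cast_nonneg m
  have hs0 : 0 ≤ Real.sqrt (m : ℝ) := Real.sqrt_nonneg _
  have hq2 : q ^ 2 = Real.sqrt (m : ℝ) := Real.sq_sqrt hs0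
  have hq4 : (m : ℝ) = q ^ 4 := by
    calc (m : ℝ) = Real.sqrt (m : ℝ) ^ 2 := (Real.sq_sqrt hm0).symm
      _ = (q ^ 2) ^ 2 := by rw [hq2]
      _ = q ^ 4 := by ring
  have hqn : 0 ≤ q := Real.sqrt_nonneg _
  have hqq0 : q0 ≤ q := by
    rw [hq4] at h1
    exact le_of_pow_le_pow_left₀ (by norm_num) hqn h1
  have hqpos : 0 < q := lt_of_lt_of_le hq0pos hqq0
  have h384 : 384 / η ^ 2 ≤ q := by
    have : 0 ≤ 50 * C / η ^ 2 := by positivity
    linarith
  have hn : (n : ℝ) ≤ η ^ 2 / 50 * q ^ 3 := by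
    rw [← hq2, div_lt_iff₀ (by positivity)] at h2
    have h50 : 50 * C / η ^ 2 ≤ q := by
      have : 0 ≤ 384 / η ^ 2 := by positivity
      linarith
    rw [div_le_iff₀ hη2] at h50
    have : C * q ^ 2 ≤ η ^ 2 / 50 * q ^ 3 := by
      have h4 : 50 * C * q ^ 2 ≤ q * η ^ 2 * q ^ 2 :=
        mul_le_mul_of_nonneg_right h50 (by positivity)
      calc C * q ^ 2 = (50 * C * q ^ 2) / 50 := by ring
        _ ≤ (q * η ^ 2 * q ^ 2) / 50 := by linarith
        _ = _ := by ring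
    linarith
  have hlow := maxBis_lower G η q hη0 hη1 (by rw [hG]; exact hq4) h384 hn
  rw [hG, ← hb] at hlow
  have hsm : Real.sqrt (m : ℝ) = q ^ 2 := hq2.symm
  have hsq2 : Real.sqrt (2 * (m : ℝ)) = Real.sqrt 2 * Real.sqrt (m : ℝ) :=
    Real.sqrt_mul (by norm_num) _
  have hsm0 : 0 < Real.sqrt (m : ℝ) := by rw [hsm]; positivity
  rw [le_div_iff₀ hsm0]
  have h8 : 1 / Real.sqrt 8 = Real.sqrt 2 / 4 := by
    have : Real.sqrt 8 = 2 * Real.sqrt 2 := by
      rw [show (8 : ℝ) = 2 ^ 2 * 2 by norm_num, Real.sqrt_mul (by norm_num),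
        Real.sqrt_sq (by norm_num)]
    rw [this]
    have h2' : Real.sqrt 2 * Real.sqrt 2 = 2 := Real.mul_self_sqrt (by norm_num)
    have h2pos : 0 < Real.sqrt 2 := Real.sqrt_pos.mpr (by norm_num)
    field_simp
    linarith
  rw [h8]
  rw [hsq2] at hlow
  linarith

/-- The clique sizes and vertex numbers used for the upper bound. -/
noncomputable def nk (c : ℝ) (k : ℕ) : ℕ :=
  max k ⌈c * Real.sqrt ((k.choose 2 : ℕ) : ℝ)⌉₊

lemma sqrt_choose_tendsto :
    Tendsto (fun k : ℕ => (k : ℝ) / Real.sqrt ((k.choose 2 : ℕ) : ℝ)) atTop (𝓝 (Real.sqrt 2)) := by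
  have h1 : Tendsto (fun k : ℕ => Real.sqrt (2 / (1 - 1 / (k : ℝ)))) atTop
      (𝓝 (Real.sqrt (2 / (1 - 0)))) := by
    apply Tendsto.sqrt
    apply Tendsto.div tendsto_const_nhds _ (by norm_num)
    exact tendsto_const_nhds.sub tendsto_one_div_atTop_nhds_zero_nat
  have h2 : Real.sqrt (2 / (1 - 0)) = Real.sqrt 2 := by norm_num
  rw [h2] at h1
  refine h1.congr' ?_
  filter_upwards [eventually_gt_atTop 1] with k hk
  have hk' : (1 : ℝ) < k := by exact_mod_cast hk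
  have hc : ((k.choose 2 : ℕ) : ℝ) = (k : ℝ) * (k - 1) / 2 := Nat.cast_choose_two ℝ k
  rw [hc]
  have hpos : 0 < (k : ℝ) * (k - 1) / 2 := by
    have : 0 < (k : ℝ) - 1 := by linarith
    positivity
  rw [eq_div_iff (Real.sqrt_pos.mpr hpos).ne', ← Real.sqrt_mul]
  · have : 2 / (1 - 1 / (k : ℝ)) * ((k : ℝ) * (k - 1) / 2) = (k : ℝ) ^ 2 := by
      have h3 : (k : ℝ) ≠ 0 := by linarith
      have h4 : (k : ℝ) - 1 ≠ 0 := by linarith
      field_simp
    rw [this, Real.sqrt_sq (by linarith)]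
  · have : 0 < 1 - 1 / (k : ℝ) := by
      rw [sub_pos, div_lt_one (by linarith)]; exact hk'
    positivity

lemma choose_tendsto : Tendsto (fun k : ℕ => k.choose 2) atTop atTop := by
  apply tendsto_atTop_mono' atTop (f₁ := fun k : ℕ => k - 1)
  · filter_upwards [eventually_gt_atTop 1] with k hk
    rw [Nat.choose_two_right]
    obtain ⟨j, rfl⟩ : ∃ j, k = j + 2 := ⟨k - 2, by omega⟩
    have : (j + 2) * (j + 2 - 1) / 2 ≥ j + 1 := by
      rw [ge_iff_le, Nat.le_div_iff_mul_le (by norm_num)]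
      have : j + 2 - 1 = j + 1 := by omega
      rw [this]; nlinarith
    omega
  · exact tendsto_sub_atTop_nat 1

lemma nk_tendsto (c : ℝ) (hc : Real.sqrt 2 ≤ c) :
    Tendsto (fun k : ℕ => ((nk c k : ℕ) : ℝ) / Real.sqrt ((k.choose 2 : ℕ) : ℝ)) atTop (𝓝 c) := by
  have hs : Tendsto (fun k : ℕ => Real.sqrt ((k.choose 2 : ℕ) : ℝ)) atTop atTop :=
    Real.tendsto_sqrt_atTop.comp (tendsto_natCast_atTop_atTop.comp choose_tendsto)
  have hc0 : 0 ≤ c := le_trans (Real.sqrt_nonneg 2) hc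
  -- lower and upper bounds
  have hlow : ∀ᶠ k : ℕ in atTop, c ≤ ((nk c k : ℕ) : ℝ) / Real.sqrt ((k.choose 2 : ℕ) : ℝ) := by
    filter_upwards [hs.eventually_gt_atTop 0] with k hk
    rw [le_div_iff₀ hk]
    refine le_trans (Nat.le_ceil _) ?_
    exact_mod_cast le_max_right _ _
  have hup : ∀ᶠ k : ℕ in atTop, ((nk c k : ℕ) : ℝ) / Real.sqrt ((k.choose 2 : ℕ) : ℝ) ≤
      max ((k : ℝ) / Real.sqrt ((k.choose 2 : ℕ) : ℝ)) (c + 1 / Real.sqrt ((k.choose 2 : ℕ) : ℝ)) := by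
    filter_upwards [hs.eventually_gt_atTop 0] with k hk
    rw [nk, Nat.cast_max]
    rcases le_total (k : ℝ) ((⌈c * Real.sqrt ((k.choose 2 : ℕ) : ℝ)⌉₊ : ℕ) : ℝ) with h | h
    · rw [max_eq_right h]
      refine le_trans ?_ (le_max_right _ _)
      rw [div_le_iff₀ hk, add_mul, one_div, inv_mul_cancel₀ hk.ne']
      exact (Nat.ceil_lt_add_one (by positivity)).le
    · rw [max_eq_left h]
      exact le_max_left _ _
  have hlim : Tendsto (fun k : ℕ => max ((k : ℝ) / Real.sqrt ((k.choose 2 : ℕ) : ℝ))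
      (c + 1 / Real.sqrt ((k.choose 2 : ℕ) : ℝ))) atTop (𝓝 (max (Real.sqrt 2) (c + 0))) := by
    apply Tendsto.max sqrt_choose_tendsto
    apply tendsto_const_nhds.add
    simp only [one_div]
    exact tendsto_inv_atTop_zero.comp hs
  rw [add_zero, max_eq_right hc] at hlim
  exact tendsto_of_tendsto_of_tendsto_of_le_of_le' tendsto_const_nhds hlim hlow hup

lemma map_le (c : ℝ) (hc : Real.sqrt 2 ≤ c) :
    map (fun k : ℕ => ((k.choose 2, nk c k) : ℕ × ℕ)) atTop ≤ pairFilter c := by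
  unfold pairFilter
  rw [le_inf_iff, le_inf_iff]
  refine ⟨⟨?_, ?_⟩, ?_⟩
  · show Tendsto (fun k : ℕ => ((k.choose 2, nk c k) : ℕ × ℕ)) atTop (comap Prod.fst atTop)
    rw [tendsto_comap_iff]
    exact choose_tendsto
  · show Tendsto (fun k : ℕ => ((k.choose 2, nk c k) : ℕ × ℕ)) atTop
      (comap (fun p => (p.2 : ℝ) / Real.sqrt (p.1 : ℝ)) (𝓝 c))
    rw [tendsto_comap_iff]
    exact nk_tendsto c hc
  · rw [le_principal_iff, mem_map]
    filter_upwards with k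
    show k.choose 2 ≤ (nk c k).choose 2
    exact Nat.choose_le_choose 2 (le_max_left _ _)

/-- For every `c ≥ √2` one has `β(c) = 1/√8`. -/
theorem result : ∀ c : ℝ, Real.sqrt 2 ≤ c → beta c = ((1 / Real.sqrt 8 : ℝ) : EReal) := by
  intro c hc
  apply le_antisymm
  · -- upper bound through cliques with isolated vertices
    have h1 : beta c ≤ liminf (fun p : ℕ × ℕ =>
        ((((bis p.1 p.2 : ℝ) - (p.1 : ℝ) / 2) / Real.sqrt (p.1 : ℝ) : ℝ) : EReal))
        (map (fun k : ℕ => ((k.choose 2, nk c k) : ℕ × ℕ)) atTop) :=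
      liminf_le_liminf_of_le (map_le c hc)
    refine le_trans h1 ?_
    have h2 : liminf (fun p : ℕ × ℕ =>
        ((((bis p.1 p.2 : ℝ) - (p.1 : ℝ) / 2) / Real.sqrt (p.1 : ℝ) : ℝ) : EReal))
        (map (fun k : ℕ => ((k.choose 2, nk c k) : ℕ × ℕ)) atTop)
        = liminf (fun k : ℕ => ((((bis (k.choose 2) (nk c k) : ℝ) - ((k.choose 2 : ℕ) : ℝ) / 2) /
          Real.sqrt ((k.choose 2 : ℕ) : ℝ) : ℝ) : EReal)) atTop := rfl
    rw [h2]
    have h3 : ∀ᶠ k : ℕ in atTop,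
        ((((bis (k.choose 2) (nk c k) : ℝ) - ((k.choose 2 : ℕ) : ℝ) / 2) /
          Real.sqrt ((k.choose 2 : ℕ) : ℝ) : ℝ) : EReal) ≤
        (((k : ℝ) / Real.sqrt ((k.choose 2 : ℕ) : ℝ) / 4 : ℝ) : EReal) := by
      filter_upwards [eventually_gt_atTop 1] with k hk
      rw [EReal.coe_le_coe_iff]
      have h4 := bis_clique_le (nk c k) k (le_max_left _ _)
      have hc2 : ((k.choose 2 : ℕ) : ℝ) = (k : ℝ) * (k - 1) / 2 := Nat.cast_choose_two ℝ k
      have hs : 0 ≤ Real.sqrt ((k.choose 2 : ℕ) : ℝ) := Real.sqrt_nonneg _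
      rw [div_right_comm]
      apply div_le_div_of_nonneg_right _ hs
      rw [hc2]
      linarith
    refine le_trans (liminf_le_liminf h3) ?_
    have h5 : Tendsto (fun k : ℕ => (((k : ℝ) / Real.sqrt ((k.choose 2 : ℕ) : ℝ) / 4 : ℝ) : EReal))
        atTop (𝓝 ((Real.sqrt 2 / 4 : ℝ) : EReal)) := by
      apply (continuous_coe_real_ereal.tendsto _).comp
      exact sqrt_choose_tendsto.div_const 4
    rw [h5.liminf_eq]
    rw [EReal.coe_le_coe_iff]
    have : Real.sqrt 8 = 2 * Real.sqrt 2 := by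
      rw [show (8 : ℝ) = 2 ^ 2 * 2 by norm_num, Real.sqrt_mul (by norm_num),
        Real.sqrt_sq (by norm_num)]
    rw [this]
    have h2' : Real.sqrt 2 * Real.sqrt 2 = 2 := Real.mul_self_sqrt (by norm_num)
    have h2pos : 0 < Real.sqrt 2 := Real.sqrt_pos.mpr (by norm_num)
    rw [div_le_div_iff₀ (by norm_num) (by positivity)]
    nlinarith
  · -- lower bound
    have key : ∀ η : ℝ, 0 < η → η ≤ 1 →
        (((1 - η) * (1 / Real.sqrt 8) : ℝ) : EReal) ≤ beta c := by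
      intro η h0 h1
      apply le_liminf_of_le (by isBoundedDefault)
      filter_upwards [lower_bound c η h0 h1] with p hp
      exact_mod_cast hp
    have hlim : Tendsto (fun η : ℝ => (((1 - η) * (1 / Real.sqrt 8) : ℝ) : EReal)) (𝓝[>] 0)
        (𝓝 (((1 - 0) * (1 / Real.sqrt 8) : ℝ) : EReal)) := by
      apply (continuous_coe_real_ereal.tendsto _).comp
      have : Continuous (fun η : ℝ => (1 - η) * (1 / Real.sqrt 8)) := by fun_prop
      exact (this.tendsto 0).mono_left nhdsWithin_le_nhds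
    rw [sub_zero, one_mul] at hlim
    apply le_of_tendsto hlim
    have : ∀ᶠ η : ℝ in 𝓝[>] 0, η ≤ 1 := by
      have h1 : ∀ᶠ η : ℝ in 𝓝 (0 : ℝ), η < 1 := eventually_lt_nhds (by norm_num)
      exact (h1.filter_mono nhdsWithin_le_nhds).mono fun η h => h.le
    filter_upwards [this, self_mem_nhdsWithin] with η h1 h0
    exact key η h0 h1

end Pool.Agent.Results.MP_279640_co.BetaConstant
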