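import Mathlib
import Pool.Agent.Lib.MP_279640_co.Defs
import Pool.Agent.Lib.MP_279640_co.Upper

set_option autoImplicit false
open scoped Classical

namespace Pool.Agent.Results.MP_279640_co.BisectionFormula

open Pool.Agent.Lib.MP_279640_co

/-- `F(m,n) = min_{0 ≤ a ≤ n} ( a ⌈n/2⌉ + E((m - M_a)_+) )`, where `M_a = a (n - a) + a.choose 2`
is the number of pairs meeting a set of `a` of the `n` vertices and `E` is the Edwards value. -/
noncomputable def F (m n : ℕ) : ℝ :=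
  ⨅ a : Fin (n + 1), ((a : ℕ) : ℝ) * (((n + 1) / 2 : ℕ) : ℝ) +
    E ((m - hubEdges n (a : ℕ) : ℕ) : ℝ)

lemma F_le (m n a : ℕ) (ha : a ≤ n) :
    F m n ≤ (a : ℝ) * (((n + 1) / 2 : ℕ) : ℝ) + E ((m - hubEdges n a : ℕ) : ℝ) :=
  ciInf_le (f := fun a : Fin (n + 1) => ((a : ℕ) : ℝ) * (((n + 1) / 2 : ℕ) : ℝ) +
    E ((m - hubEdges n (a : ℕ) : ℕ) : ℝ)) (Set.finite_range _).bddBelow ⟨a, by omega⟩

/-- The formula for `b(m,n)` up to an error of order `m^(1/4)`. -/
theorem result : ∀ m n : ℕ, 1 ≤ m → m ≤ n.choose 2 →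
    ((n : ℝ) ≤ 12 * Real.sqrt m → E (m : ℝ) - 60 ≤ (bis m n : ℝ)) ∧
    (12 * Real.sqrt m ≤ (n : ℝ) → F m n ≤ (bis m n : ℝ)) ∧
    (Real.sqrt (2 * m) + 7 * Real.sqrt (Real.sqrt m) ≤ (n : ℝ) →
      (bis m n : ℝ) ≤ F m n + 2 * Real.sqrt (Real.sqrt m)) := by
  intro m n hm hmn
  obtain ⟨G, hG, hb⟩ := exists_bis m n hmn
  have hsum := sum_A_eq G
  rw [hG] at hsum
  have hbal := bal_maxBis G
  rw [hG, ← hb] at hbal
  have hm1 : (1 : ℝ) ≤ m := by exact_mod_cast hm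
  refine ⟨?_, ?_, ?_⟩
  · intro hn
    have h1 := lower_dense (sur_of_bal hbal) (m : ℝ) (by linarith) hsum
      (by rw [Fintype.card_fin]; exact hn)
    have h2 := four_E (m : ℝ)
    have h3 : Real.sqrt (8 * m + 1) ≤ 2 * Real.sqrt (2 * m) + 1 := by
      have h4 : 0 ≤ Real.sqrt (2 * (m : ℝ)) := Real.sqrt_nonneg _
      have h5 : Real.sqrt (2 * (m : ℝ)) ^ 2 = 2 * m := Real.sq_sqrt (by linarith)
      rw [Real.sqrt_le_left (by linarith)]
      nlinarith
    linarith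
  · intro hn
    obtain ⟨a, ha, h1⟩ := lower_exact hbal m hsum hm (by rw [Fintype.card_fin]; exact hn)
    rw [Fintype.card_fin] at ha h1
    have h2 := F_le m n a ha
    linarith
  · intro hn
    have h1 : (bis m n : ℝ) - 2 * Real.sqrt (Real.sqrt m) ≤ F m n := by
      unfold F
      apply le_ciInf
      intro a
      have := upper m n (a : ℕ) hm (by have := a.2; omega) hn
      linarith
    linarith

end Pool.Agent.Results.MP_279640_co.BisectionFormula
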