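import Mathlib
import Pool.Agent.Lib.MP_279640_co.Defs
import Pool.Agent.Lib.MP_279640_coF.Wide

set_option autoImplicit false
open scoped Classical

namespace Pool.Agent.Results.MP_279640_co.DenseExact

open Pool.Agent.Lib.MP_279640_co
open Pool.Agent.Lib.MP_279640_coF

/-- Exact values of `b(m,n)` in the dense range: for the least possible number of vertices, and for
`m = C(N,2) + C(l,2)`, `l ≤ 3`, and all `n` up to about `2 N`. -/
theorem result :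
    (∀ N d : ℕ, d ≤ N → bis (N.choose 2 + d) (N + 1) = N ^ 2 / 4 + min d ((N + 1) / 2)) ∧
    (∀ N a : ℕ, a ≤ 4 → bis (N.choose 2) (N + a) = N ^ 2 / 4) ∧
    (∀ m : ℕ, 1 ≤ m → ∃ N d : ℕ, 1 ≤ d ∧ d ≤ N ∧ m = N.choose 2 + d ∧
      ∀ n : ℕ, m ≤ n.choose 2 → N + 1 ≤ n) ∧
    (∀ p m n : ℕ, (2 * p).choose 2 ≤ m → m ≤ n.choose 2 → n + 2 ≤ 4 * p →
      m + p ≤ 2 * bis m n) ∧
    (∀ p : ℕ, 2 ≤ p → bis ((2 * p).choose 2 + 1) (6 * p - 4) ≤ p ^ 2) ∧
    (∀ N l n : ℕ, l ≤ 3 → N + 2 * l ≤ n → n + 2 ≤ 4 * (N / 2) →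
      bis (N.choose 2 + l.choose 2) n = (N ^ 2 + l ^ 2) / 4) ∧
    ∀ p n : ℕ, 2 * p + 1 ≤ n → n + 2 ≤ 4 * p →
      bis ((2 * p + 1).choose 2 - 1) n = p * (p + 1) := by
  refine ⟨few_one, few_two, few_three, ?_, wide_sharp, ?_, ?_⟩
  · intro p m n h1 h2 h3
    exact wide_lower p m n h1 h2 h3
  · intro N l n hl h1 h2
    exact wide_exact N l n hl h1 h2
  · intro p n h1 h2
    exact wide_minus p n (by omega) h1 h2

end Pool.Agent.Results.MP_279640_co.DenseExact
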