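import Mathlib
import Pool.Agent.Lib.MP_279640_co.Defs
import Pool.Agent.Lib.MP_279640_co.Defs2
import Pool.Agent.Lib.MP_279640_coF.Sparse2

set_option autoImplicit false
open scoped Classical

namespace Pool.Agent.Results.MP_279640_co.ExactSparse

open Pool.Agent.Lib.MP_279640_co
open Pool.Agent.Lib.MP_279640_coF

/-- Exact values of `b(m,n)` for sparse graphs; `hubEdges n a = a (n - a) + a.choose 2` is the
number of pairs meeting a set of `a` of the `n` vertices and `E` is the Edwards value. -/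
theorem result :
    (∀ m n a k l : ℕ, 1 ≤ m → 12 * Real.sqrt m ≤ (n : ℝ) → 1 ≤ k → l ≤ 3 → a + k + 2 * l ≤ n →
      m - hubEdges n a = k.choose 2 + l.choose 2 →
      (∀ b ≤ n, (a : ℝ) * (((n + 1) / 2 : ℕ) : ℝ) + E ((m - hubEdges n a : ℕ) : ℝ) ≤
        (b : ℝ) * (((n + 1) / 2 : ℕ) : ℝ) + E ((m - hubEdges n b : ℕ) : ℝ)) →
      bis m n = a * ((n + 1) / 2) + (k ^ 2 + l ^ 2) / 4) ∧
    (∀ n a δ m : ℕ, 1 ≤ a → 144 * a ≤ n →
      2 * (a - 1) * (a + 1) ^ 2 + 2 * (a + 1 + δ) * (a + 2 + δ) ≤ n →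
      m + δ = hubEdges n a → bis m n = a * ((n + 1) / 2)) ∧
    (∀ n a k l : ℕ, 5 ≤ a → l ≤ 3 → 16 * (a + 1) ^ 2 ≤ k → Even n →
      2 * a * (k + a) ≤ n → n ≤ 2 * (a + 1) * (k - a - 1) →
      bis (hubEdges n a + k.choose 2 + l.choose 2) n
        = a * ((n + 1) / 2) + (k ^ 2 + l ^ 2) / 4) ∧
    (∀ n a k l : ℕ, 4 ≤ a → l ≤ 3 → 16 * (a + 2) ^ 2 ≤ k → Odd n →
      2 * (a + 1) * (k + a + 1) ≤ n + 1 → n + 1 ≤ 2 * (a + 2) * (k - a - 2) →
      bis (hubEdges n a + k.choose 2 + l.choose 2) n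
        = a * ((n + 1) / 2) + (k ^ 2 + l ^ 2) / 4) ∧
    ∀ n k l : ℕ, 18 ≤ k → l ≤ 3 → k ^ 2 + l ^ 2 ≤ 2 * n + l + 1 →
      bis (k.choose 2 + l.choose 2) n = (k ^ 2 + l ^ 2) / 4 := by
  refine ⟨?_, ?_, ?_, ?_, ?_⟩
  · intro m n a k l hm hn hk hl hakl hr hmin
    exact exact_criterion m n a k l hm hn hk hl hakl hr hmin
  · intro n a δ m ha hn hcond hm
    exact exact_split n a δ m ha hn hcond hm
  · intro n a k l ha hl hk hn h1 h2
    obtain ⟨y, hy⟩ := hn
    exact exact_window n a k 0 l hl (by omega) (by omega) (by omega) (by simpa using hk)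
      (by simpa using h1) (by
        rw [Nat.sub_sub] at h2
        simpa using h2)
  · intro n a k l ha hl hk hn h1 h2
    obtain ⟨y, hy⟩ := hn
    exact exact_window n a k 1 l hl (by omega) (by omega) (by omega) hk h1 (by
      rw [Nat.sub_sub] at h2
      exact h2)
  · intro n k l hk hl hn
    exact exact_clique n k l hk hl hn

end Pool.Agent.Results.MP_279640_co.ExactSparse
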